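import Pool.Agent.Y481.DX.Defs2
import Pool.Agent.Y482.Cv.Lab
import Pool.Agent.TH563.CV.Sum

/-!
# Existence of flattenings of the ring of trees
-/

set_option autoImplicit false

namespace Pool.Agent.Y929.DX

open Finset
open Pool.Agent.W719.AR (Fl)
open Pool.Agent.TH563.UV (AB)
open Pool.Agent.TH563.UV.Arb (ofAB ofFl)
open Pool.Agent.TH563.CV (std odd std_inner std_end std_across std_order chain_of circle_of
  weight_of)
open Pool.Agent.Y481.DX

/-! ### Trees -/

/-- the tree with the standard flattening -/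
noncomputable def flatA : AB → FT
  | .vx b a => .single b a
  | .br t c f g => .join (flatA t) (flatA c)
      (std false (odd c.wt) 0 (if c.bl then 0 else 1) (ofFl f) (ofFl g))

lemma flatA_angles : ∀ y : AB, (flatA y).angles = ofAB y
  | .vx b a => rfl
  | .br t c f g => by
    simp only [flatA, Pool.Agent.TH563.CV.FlatTree.angles, ofAB]
    rw [flatA_angles t, flatA_angles c]
    rfl

/-- the conditions on the edges at a vertex -/
def Mk (l : List Pool.Agent.TH563.CV.Piece) : Prop :=
  (∀ x ∈ l, x.End ∧ x.n1 < x.n2 ∧ x.n4 < x.n3) ∧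
  (l.map fun x => x.F.a + x.F.a' + x.F.c' - 1).sum = 0 ∧
  (l.map fun x => x.B.a + x.B.a' + x.B.c' - 1).sum = 0

lemma flatA_edges : ∀ y : AB, Mk (flatA y).edges
  | .vx b a => by simp [flatA, Pool.Agent.TH563.CV.FlatTree.edges, Mk]
  | .br t c f g => by
    obtain ⟨h1, h2, h3⟩ := flatA_edges t
    have a1 := (std_end false (odd c.wt) 0 (if c.bl then 0 else 1) (ofFl f) (ofFl g)).1
    have a2 := (std_across false (odd c.wt) 0 (if c.bl then 0 else 1) (ofFl f) (ofFl g)).1
    have a3 := (std_order false (odd c.wt) 0 (if c.bl then 0 else 1) (ofFl f) (ofFl g)).1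
    have e1 : (flatA (.br t c f g)).edges = (flatA t).edges ++
      [std false (odd c.wt) 0 (if c.bl then 0 else 1) (ofFl f) (ofFl g)] := rfl
    rw [e1]
    refine ⟨?_, ?_, ?_⟩
    · intro y hy
      rcases List.mem_append.1 hy with hy | hy
      · exact h1 y hy
      · rw [List.mem_singleton] at hy
        rw [hy]
        exact ⟨a1, a3.1, a3.2.2 rfl⟩
    · rw [List.map_append, List.sum_append, h2]
      simp only [List.map_cons, List.map_nil, List.sum_cons, List.sum_nil, add_zero]
      rw [a2.1]
      ring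
    · rw [List.map_append, List.sum_append, h3]
      simp only [List.map_cons, List.map_nil, List.sum_cons, List.sum_nil, add_zero]
      rw [a2.2]
      ring

lemma flatA_below : ∀ y : AB, (flatA y).Below
  | .vx b a => trivial
  | .br t c f g => by
    refine ⟨flatA_below t, flatA_below c, std_inner _ _ _ _ _ _, ?_⟩
    rw [flatA_angles, circle_of, weight_of]
    obtain ⟨h1, h2, h3⟩ := flatA_edges c
    have a1 := (std_end false (odd c.wt) 0 (if c.bl then 0 else 1) (ofFl f) (ofFl g)).2
    have a2 := (std_across false (odd c.wt) 0 (if c.bl then 0 else 1) (ofFl f) (ofFl g)).2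
    have a3 := (std_order false (odd c.wt) 0 (if c.bl then 0 else 1) (ofFl f) (ofFl g)).2
    have e : (2 * (if c.bl then 0 else 1) : ℤ) = (if c.bl then 0 else 2) := by
      split_ifs <;> rfl
    refine ⟨?_, ?_, ?_, ?_, ?_⟩
    · intro y hy
      rcases List.mem_cons.1 hy with rfl | hy
      · exact a1
      · exact (h1 y hy).1
    · rw [List.map_cons, List.sum_cons, h2, a2.1, add_zero, e]
    · rw [List.map_cons, List.sum_cons, h3, a2.2, add_zero, e]
    · apply chain_of
      intro x hx y hy
      refine iff_of_true ?_ ?_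
      · rcases List.mem_cons.1 hx with rfl | hx
        · exact a3.1
        · exact (h1 x hx).2.1
      · exact (h1 y hy).2.2
    · intro x hx y hy
      have hx1 : x.n1 < x.n2 := by
        rcases List.mem_cons.1 (List.mem_of_getLast? hx) with rfl | hx
        · exact a3.1
        · exact (h1 x hx).2.1
      rw [List.head?_cons, Option.mem_def, Option.some.injEq] at hy
      rw [← hy, a3.2]
      have k3 : odd c.wt = false ↔ Even c.wt := by
        unfold odd
        simp
      rw [← k3]
      exact ⟨fun h => h.1 hx1, fun h => iff_of_true hx1 h⟩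

/-! ### Blocks -/

open scoped Classical in
/-- the labels of two octahedra -/
noncomputable def blk (A B : Prop) (r : ℤ) : Pool.Agent.Y482.Cv.Piece where
  f := ⟨2, -1, 0, 0, 0, 1⟩
  g := ⟨-r, 1, r, r, -r, 1⟩
  F := ⟨1, -1, 1, 1, -1, 1⟩
  G := ⟨r, 1, -r, -r, r, 1⟩
  n1 := if A then -1 else 1
  n2 := 0
  n3 := if B then -2 else 2
  n4 := 5

lemma blk_inner (A B : Prop) (r : ℤ) : (blk A B r).Inner := by
  unfold Pool.Agent.Y482.Cv.Piece.Inner blk
  simp only
  refine ⟨by omega, by omega, by omega, by omega, by omega, by omega, ?_⟩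
  split_ifs <;> norm_num

lemma blk_bottom (A B : Prop) (r : ℤ) : (blk A B r).Bottom := by
  unfold Pool.Agent.Y482.Cv.Piece.Bottom blk
  simp only
  omega

lemma blk_top (A B : Prop) (r : ℤ) : (blk A B r).Top := by
  unfold Pool.Agent.Y482.Cv.Piece.Top blk
  simp only
  omega

lemma blk_low (A B : Prop) (r : ℤ) : (blk A B r).low = 2 := by
  simp [Pool.Agent.Y482.Cv.Piece.low, blk]

lemma blk_high (A B : Prop) (r : ℤ) : (blk A B r).high = 0 := by
  simp [Pool.Agent.Y482.Cv.Piece.high, blk]

lemma blk_along (A B : Prop) (r : ℤ) : (blk A B r).along = r := by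
  simp [Pool.Agent.Y482.Cv.Piece.along, blk]

lemma blk_12 (A B : Prop) (r : ℤ) : (blk A B r).n1 < (blk A B r).n2 ↔ A := by
  simp only [blk]
  split_ifs with h
  · exact iff_of_true (by norm_num) h
  · exact iff_of_false (by norm_num) h

lemma blk_21 (A B : Prop) (r : ℤ) : (blk A B r).n2 < (blk A B r).n1 ↔ ¬ A := by
  simp only [blk]
  split_ifs with h
  · exact iff_of_false (by norm_num) (not_not.2 h)
  · exact iff_of_true (by norm_num) h

lemma blk_32 (A B : Prop) (r : ℤ) : (blk A B r).n3 < (blk A B r).n2 ↔ B := by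
  simp only [blk]
  split_ifs with h
  · exact iff_of_true (by norm_num) h
  · exact iff_of_false (by norm_num) h

lemma blk_23 (A B : Prop) (r : ℤ) : (blk A B r).n2 < (blk A B r).n3 ↔ ¬ B := by
  simp only [blk]
  split_ifs with h
  · exact iff_of_false (by norm_num) (not_not.2 h)
  · exact iff_of_true (by norm_num) h

lemma blk_14 (A B : Prop) (r : ℤ) : (blk A B r).n1 < (blk A B r).n4 := by
  simp only [blk]
  split_ifs <;> norm_num

lemma blk_34 (A B : Prop) (r : ℤ) : (blk A B r).n3 < (blk A B r).n4 := by
  simp only [blk]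
  split_ifs <;> norm_num

/-- **Flattenings of the ring of trees exist.** -/
theorem exf : S_EXF := by
  intro n c y hn
  refine ⟨fun j => flatA (y j), fun j => blk ((flatA (y j)).edges ≠ [] ∨ Odd (y j).wt)
    ((flatA (y ((j + 1) % n))).edges ≠ [] ∧ Even (y ((j + 1) % n)).wt) (if j = 0 then c else 0),
    fun j _ => flatA_angles (y j), ?_, ?_, ?_, ?_⟩
  · intro j _
    exact ⟨blk_inner _ _ _, blk_bottom _ _ _, blk_top _ _ _⟩
  · intro j _
    exact flatA_below _
  · intro j _
    have hw : (flatA (y ((j + 1) % n))).angles.weight = (y ((j + 1) % n)).wt := by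
      rw [flatA_angles, weight_of]
    obtain ⟨h1, h2, h3⟩ := flatA_edges (y ((j + 1) % n))
    rw [hw]
    refine ⟨fun x hx => (h1 x hx).1, ?_, ?_, ?_, ?_, ?_, ?_, ?_⟩
    · rw [blk_low, blk_high, h2]
      rfl
    · intro hl hev
      rw [blk_23, blk_21]
      refine iff_of_true (fun h => h.1 hl) ?_
      rintro (h | h)
      · exact h hl
      · exact (Int.not_even_iff_odd.2 h) hev
    · intro hl hod
      rw [blk_23, blk_12]
      exact iff_of_true (fun h => h.1 hl) (Or.inr hod)
    · intro x hx
      rw [blk_12]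
      refine iff_of_true (Or.inl ?_) (h1 x (List.mem_of_mem_head? hx)).2.2
      intro hl
      rw [hl] at hx
      simp at hx
    · apply chain_of
      intro a ha b hb
      exact iff_of_true (h1 a ha).2.1 (h1 b (List.mem_of_mem_tail hb)).2.2
    · intro x hx
      rw [blk_32]
      have hne : (flatA (y ((j + 1) % n))).edges ≠ [] := by
        intro hl
        rw [hl] at hx
        simp at hx
      have hx1 := (h1 x (List.mem_of_getLast? hx)).2.1
      exact ⟨fun h => (h.1 hx1).2, fun h => iff_of_true hx1 ⟨hne, h⟩⟩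
    · exact iff_of_true (blk_14 _ _ _) (blk_34 _ _ _)
  · simp only [blk_along]
    rw [sum_ite_eq' (range n) 0 (fun _ => c), if_pos (mem_range.2 (by omega))]

end Pool.Agent.Y929.DX
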